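import Mathlib
import Pool.Agent.Helper292.ForceCH

/-!
# A non-selective q-point which is a Fubini sum of selective ultrafilters

Let `W` be a nonprincipal ultrafilter and let `Y n` be pairwise non-isomorphic selective
ultrafilters. Then the Fubini limit `lim W Y` is a q-point, although it is not a p-point. Under CH
such ultrafilters exist, and `lim W Y` is a Fubini iterate of p-points of depth 2. So ZFC does not
prove that q-points Tukey below a finite Fubini iterate of p-points are selective.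

Idea of the proof. Let `φ` be finite-to-one and let `φ n` be its restriction to the column `n`. The
images of the `Y n` under the `φ n` are pairwise different p-points, as the `Y n` are pairwise
non-isomorphic and the `φ n` are injective on sets in `Y n`. A countable set of p-points is
discrete, so these images contain pairwise disjoint sets. Their preimages give a set in the
Fubini limit on which `φ` is injective.
-/

set_option autoImplicit false

namespace Pool.Agent.Results.MP_21276c_lc.NonSelectiveQPoint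

open Set Filter

/-- An ultrafilter on `ω` is nonprincipal if it contains no singleton. -/
def Nonprincipal (U : Ultrafilter ℕ) : Prop := ∀ n : ℕ, ({n} : Set ℕ) ∉ U

/-- A p-point: every `f : ω → ω` is constant or finite-to-one on some set in `U`. -/
def IsPPoint (U : Ultrafilter ℕ) : Prop :=
  Nonprincipal U ∧
    ∀ f : ℕ → ℕ, ∃ X ∈ U, (∃ c, ∀ x ∈ X, f x = c) ∨ ∀ c, {x ∈ X | f x = c}.Finite

/-- A q-point: every finite-to-one `f : ω → ω` is injective on some set in `U`. -/
def IsQPoint (U : Ultrafilter ℕ) : Prop :=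
  Nonprincipal U ∧ ∀ f : ℕ → ℕ, (∀ c, {x | f x = c}.Finite) → ∃ X ∈ U, InjOn f X

/-- Selective: every `f : ω → ω` is constant or injective on some set in `U`. -/
def IsSelective (U : Ultrafilter ℕ) : Prop :=
  Nonprincipal U ∧ ∀ f : ℕ → ℕ, ∃ X ∈ U, (∃ c, ∀ x ∈ X, f x = c) ∨ InjOn f X

/-- `V ≤_T U`: there is a map from `U` to `V`, monotone and with image cofinal in `V`. -/
def TukeyLE (V U : Ultrafilter ℕ) : Prop :=
  ∃ g : Set ℕ → Set ℕ, (∀ A ∈ U, g A ∈ V) ∧ (∀ A ∈ U, ∀ B ∈ U, A ⊆ B → g A ⊆ g B) ∧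
    ∀ B ∈ V, ∃ A ∈ U, g A ⊆ B

/-- The Fubini limit of the ultrafilters `Y n` along `W`, as an ultrafilter on `ω` through the
pairing function: `A` is in it iff for `W`-many `n` the section `{m | ⟨n, m⟩ ∈ A}` is in `Y n`. -/
def lim (W : Ultrafilter ℕ) (Y : ℕ → Ultrafilter ℕ) : Ultrafilter ℕ :=
  W.bind fun n => (Y n).map (Nat.pair n)

/-- The Fubini iterates of p-points of depth at most `k`: those of depth at most `1` are the
p-points; those of depth at most `k + 1` are those of depth at most `k`, and the Fubini limits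
along a p-point of iterates of depth at most `k`. -/
def FubiniIterate : ℕ → Ultrafilter ℕ → Prop
  | 0, _ => False
  | 1, U => IsPPoint U
  | k + 2, U => FubiniIterate (k + 1) U ∨
      ∃ (W : Ultrafilter ℕ) (Y : ℕ → Ultrafilter ℕ), IsPPoint W ∧
        (∀ n, FubiniIterate (k + 1) (Y n)) ∧ U = lim W Y

theorem mem_lim {W : Ultrafilter ℕ} {Y : ℕ → Ultrafilter ℕ} {A : Set ℕ} :
    A ∈ lim W Y ↔ {n | {m | Nat.pair n m ∈ A} ∈ Y n} ∈ W := Iff.rfl

theorem Nonprincipal.finite {U : Ultrafilter ℕ} (hU : Nonprincipal U) {s : Set ℕ}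
    (hs : s.Finite) : s ∉ U := by
  intro h
  obtain ⟨x, -, hx⟩ := Ultrafilter.eq_pure_of_finite_mem hs h
  exact hU x (by rw [hx]; exact Ultrafilter.mem_pure.2 rfl)

/-- The usual form of the p-point property. -/
theorem IsSelective.pseudo {U : Ultrafilter ℕ} (hU : IsSelective U) (A : ℕ → Set ℕ)
    (hA : ∀ n, A n ∈ U) : ∃ B ∈ U, ∀ n, (B \ A n).Finite := by
  classical
  let A' : ℕ → Set ℕ := fun n => {x | n < x ∧ ∀ i ≤ n, x ∈ A i}
  have hA' : ∀ n, A' n ∈ U := by
    intro n
    have h1 : {x : ℕ | n < x} ∈ U := by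
      have := hU.1.finite (finite_le_nat n)
      rw [← Ultrafilter.compl_mem_iff_notMem] at this
      refine mem_of_superset this fun x hx => ?_
      have hx' : ¬ x ≤ n := hx
      exact not_le.1 hx'
    have h2 : ∀ᶠ x in (U : Filter ℕ), ∀ i ∈ Iic n, x ∈ A i :=
      (finite_Iic n).eventually_all.2 fun i _ => hA i
    exact inter_mem h1 h2
  have hnot : ∀ x, ∃ n, x ∉ A' n := fun x => ⟨x, fun h => absurd h.1 (lt_irrefl x)⟩
  let f : ℕ → ℕ := fun x => Nat.find (hnot x)
  have hf : ∀ x, x ∉ A' (f x) := fun x => Nat.find_spec (hnot x)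
  have hf' : ∀ x n, x ∉ A' n → f x ≤ n := fun x n h => Nat.find_min' (hnot x) h
  obtain ⟨X, hX, ⟨c, hc⟩ | hinj⟩ := hU.2 f
  · exfalso
    obtain ⟨x, hx1, hx2⟩ := U.nonempty_of_mem (inter_mem hX (hA' c))
    exact hf x (by rw [hc x hx1]; exact hx2)
  · refine ⟨X, hX, fun n => ?_⟩
    have h1 : (X \ A n) ⊆ {x ∈ X | f x ≤ n} := by
      rintro x ⟨hx, hx'⟩
      exact ⟨hx, hf' x n fun h => hx' (h.2 n le_rfl)⟩
    refine Finite.subset ?_ h1
    refine Finite.of_finite_image (f := f) ((finite_le_nat n).subset ?_)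
      (hinj.mono fun x hx => hx.1)
    rintro _ ⟨x, hx, rfl⟩
    exact hx.2

theorem IsSelective.isPPoint {U : Ultrafilter ℕ} (hU : IsSelective U) : IsPPoint U := by
  refine ⟨hU.1, fun f => ?_⟩
  obtain ⟨X, hX, h | h⟩ := hU.2 f
  · exact ⟨X, hX, Or.inl h⟩
  · refine ⟨X, hX, Or.inr fun c => ?_⟩
    refine Set.Subsingleton.finite ?_
    rintro x ⟨hx, hxc⟩ y ⟨hy, hyc⟩
    exact h hx hy (hxc.trans hyc.symm)

/-- The main lemma, in ZFC. -/
theorem isQPoint_lim {W : Ultrafilter ℕ} {Y : ℕ → Ultrafilter ℕ} (hY : ∀ n, IsSelective (Y n))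
    (hne : ∀ m n, m ≠ n → ∀ g : ℕ → ℕ, (Y m).map g ≠ Y n) : IsQPoint (lim W Y) := by
  classical
  refine ⟨fun x hx => ?_, fun φ hφ => ?_⟩
  · rw [mem_lim] at hx
    obtain ⟨n, hn⟩ := W.nonempty_of_mem hx
    refine (hY n).1.finite ?_ hn
    refine Set.Subsingleton.finite ?_
    intro a ha b hb
    have h1 : Nat.pair n a = x := ha
    have h2 : Nat.pair n b = x := hb
    exact (Nat.pair_eq_pair.1 (h1.trans h2.symm)).2
  -- restrictions to the columns
  have hfin : ∀ n c, {m | φ (Nat.pair n m) = c}.Finite := by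
    intro n c
    refine Finite.of_finite_image (f := Nat.pair n) ((hφ c).subset ?_) ?_
    · rintro _ ⟨m, hm, rfl⟩
      exact hm
    · intro a _ b _ hab
      exact (Nat.pair_eq_pair.1 hab).2
  have hB : ∀ n, ∃ B ∈ Y n, InjOn (fun m => φ (Nat.pair n m)) B := by
    intro n
    obtain ⟨X, hX, ⟨c, hc⟩ | h⟩ := (hY n).2 fun m => φ (Nat.pair n m)
    · exact absurd hX ((hY n).1.finite ((hfin n c).subset hc))
    · exact ⟨X, hX, h⟩
  choose B hBY hBinj using hB
  let Z : ℕ → Ultrafilter ℕ := fun n => (Y n).map fun m => φ (Nat.pair n m)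
  have hZnp : ∀ n, Nonprincipal (Z n) := by
    intro n c hc
    exact (hY n).1.finite (hfin n c) (Ultrafilter.mem_map.1 hc)
  have hZne : ∀ m n, m ≠ n → Z m ≠ Z n := by
    intro m n hmn h
    -- the inverse of the restriction to the column n
    let g : ℕ → ℕ := Function.invFunOn (fun k => φ (Nat.pair n k)) (B n)
    apply hne m n hmn (fun k => g (φ (Nat.pair m k)))
    have h1 : (Z n).map g = Y n := by
      apply Ultrafilter.coe_injective
      ext S
      rw [Ultrafilter.mem_coe, Ultrafilter.mem_coe, Ultrafilter.mem_map, Ultrafilter.mem_map]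
      have h2 : ∀ k ∈ B n, g (φ (Nat.pair n k)) = k := by
        intro k hk
        have h3 : ∃ a ∈ B n, (fun k => φ (Nat.pair n k)) a = φ (Nat.pair n k) := ⟨k, hk, rfl⟩
        exact hBinj n (Function.invFunOn_mem h3) hk (Function.invFunOn_eq h3)
      constructor
      · intro h4
        refine mem_of_superset (inter_mem h4 (hBY n)) ?_
        rintro k ⟨hk1, hk2⟩
        have h5 : g (φ (Nat.pair n k)) ∈ S := hk1
        rwa [h2 k hk2] at h5
      · intro h4
        refine mem_of_superset (inter_mem h4 (hBY n)) ?_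
        rintro k ⟨hk1, hk2⟩
        change g (φ (Nat.pair n k)) ∈ S
        rwa [h2 k hk2]
    rw [← h1, ← h]
    rfl
  -- the images are p-points
  have hZp : ∀ n, ∀ D : ℕ → Set ℕ, (∀ k, D k ∈ Z n) → ∃ C ∈ Z n, ∀ k, (C \ D k).Finite := by
    intro n D hD
    obtain ⟨E, hE, hED⟩ := (hY n).pseudo (fun k => {m | φ (Nat.pair n m) ∈ D k})
      fun k => Ultrafilter.mem_map.1 (hD k)
    refine ⟨(fun m => φ (Nat.pair n m)) '' E, ?_, fun k => ?_⟩
    · exact Ultrafilter.mem_map.2 (mem_of_superset hE (subset_preimage_image _ _))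
    · refine ((hED k).image fun m => φ (Nat.pair n m)).subset ?_
      rintro _ ⟨⟨m, hm, rfl⟩, hm'⟩
      exact ⟨m, ⟨hm, hm'⟩, rfl⟩
  -- they form a discrete set
  have hC : ∀ n, ∃ C ∈ Z n, ∀ m, m ≠ n → C ∉ Z m := by
    intro n
    have h1 : ∀ m, ∃ D ∈ Z n, m ≠ n → D ∉ Z m := by
      intro m
      by_cases hmn : m = n
      · exact ⟨univ, univ_mem, fun h => absurd hmn h⟩
      · by_contra hcon
        push Not at hcon
        apply hZne m n hmn
        apply Ultrafilter.eq_of_le
        intro D hD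
        exact (hcon D hD).2
    choose D hD1 hD2 using h1
    obtain ⟨C, hC, hCD⟩ := hZp n D hD1
    refine ⟨C, hC, fun m hmn hCm => ?_⟩
    have h2 := (hZnp m).finite (hCD m)
    rw [← Ultrafilter.compl_mem_iff_notMem] at h2
    refine hD2 m hmn (mem_of_superset (inter_mem hCm h2) ?_)
    rintro x ⟨hx1, hx2⟩
    by_contra hx3
    exact hx2 ⟨hx1, hx3⟩
  choose C hCZ hCZ' using hC
  let C' : ℕ → Set ℕ := fun n => {x ∈ C n | ∀ m < n, x ∉ C m}
  have hC' : ∀ n, C' n ∈ Z n := by
    intro n
    have h1 : ∀ᶠ x in (Z n : Filter ℕ), ∀ m ∈ Iio n, x ∉ C m :=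
      (finite_Iio n).eventually_all.2 fun m hm =>
        Ultrafilter.compl_mem_iff_notMem.2 (hCZ' m n (ne_of_gt hm))
    exact inter_mem (hCZ n) h1
  have hdisj : ∀ m n x, x ∈ C' m → x ∈ C' n → m = n := by
    intro m n x hm hn
    rcases lt_trichotomy m n with h | h | h
    · exact absurd hm.1 (hn.2 m h)
    · exact h
    · exact absurd hn.1 (hm.2 n h)
  refine ⟨{x | ∃ n m, x = Nat.pair n m ∧ m ∈ B n ∧ φ (Nat.pair n m) ∈ C' n}, ?_, ?_⟩
  · rw [mem_lim]
    refine mem_of_superset univ_mem fun n _ => ?_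
    refine mem_of_superset (inter_mem (hBY n) (Ultrafilter.mem_map.1 (hC' n))) ?_
    rintro m ⟨hm1, hm2⟩
    exact ⟨n, m, rfl, hm1, hm2⟩
  · rintro _ ⟨n, m, rfl, hm, hm'⟩ _ ⟨n', k, rfl, hk, hk'⟩ heq
    have h1 : n = n' := by
      apply hdisj n n' (φ (Nat.pair n m)) hm'
      rw [heq]
      exact hk'
    subst h1
    have h2 : m = k := hBinj n hm hk heq
    rw [h2]

theorem not_isSelective_lim {W : Ultrafilter ℕ} {Y : ℕ → Ultrafilter ℕ}
    (hW : Nonprincipal W) (hY : ∀ n, Nonprincipal (Y n)) : ¬ IsSelective (lim W Y) := by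
  rintro ⟨-, h⟩
  obtain ⟨X, hX, ⟨c, hc⟩ | hinj⟩ := h fun x => (Nat.unpair x).1
  · rw [mem_lim] at hX
    refine hW c (mem_of_superset hX ?_)
    intro n hn
    obtain ⟨m, hm⟩ := (Y n).nonempty_of_mem hn
    have := hc _ hm
    simp only [Nat.unpair_pair] at this
    exact this
  · rw [mem_lim] at hX
    obtain ⟨n, hn⟩ := W.nonempty_of_mem hX
    refine (hY n).finite (Set.Subsingleton.finite ?_) hn
    intro a ha b hb
    have : Nat.pair n a = Nat.pair n b := hinj ha hb (by simp)
    exact (Nat.pair_eq_pair.1 this).2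

/-! ### The construction under CH -/

theorem rc {I α : Type*} [LinearOrder I] [WellFoundedLT I] [Inhabited α]
    (P : I → (I → α) → α → Prop) (h : ∀ a g, ∃ x, P a g x) :
    ∃ g : I → α, ∀ a, P a (fun b => open Classical in if b < a then g b else default) (g a) := by
  classical
  choose F hF using h
  let g : I → α := WellFounded.fix (r := (· < ·)) wellFounded_lt
    fun a ih => F a fun b => if hb : b < a then ih b hb else default
  have hg : ∀ a, g a = F a fun b => if b < a then g b else default := by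
    intro a
    change WellFounded.fix _ _ _ = _
    rw [WellFounded.fix_eq]
    congr 1
  refine ⟨g, fun a => ?_⟩
  rw [hg a]
  exact hF a _

theorem exists_pseudo {S : ℕ → Set ℕ} (k : ∀ n, {x | ∀ i ≤ n, x ∈ S i}.Infinite) :
    ∃ R : Set ℕ, R.Infinite ∧ ∀ i, (R \ S i).Finite := by
  obtain ⟨φ, φ1, φ2⟩ := extraction_forall_of_frequently fun n =>
    Nat.frequently_atTop_iff_infinite.2 (k n)
  refine ⟨range φ, infinite_range_of_injective φ1.injective, fun i =>
    ((finite_lt_nat i).image φ).subset ?_⟩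
  rintro _ ⟨⟨n, rfl⟩, r⟩
  exact ⟨n, not_le.1 fun l => r (φ2 n i l), rfl⟩

/-- An infinite set has an infinite subset on which `f` is constant or injective, and which is
not in a given ultrafilter. -/
theorem exists_homog (R : Set ℕ) (hR : R.Infinite) (f : ℕ → ℕ) (F : Ultrafilter ℕ) :
    ∃ C ⊆ R, C.Infinite ∧ ((∃ c, ∀ x ∈ C, f x = c) ∨ InjOn f C) ∧ C ∉ F := by
  classical
  have h1 : ∃ C ⊆ R, C.Infinite ∧ ((∃ c, ∀ x ∈ C, f x = c) ∨ InjOn f C) := by
    by_cases h : ∃ c, {x ∈ R | f x = c}.Infinite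
    · obtain ⟨c, hc⟩ := h
      exact ⟨_, fun x hx => hx.1, hc, Or.inl ⟨c, fun x hx => hx.2⟩⟩
    · push Not at h
      have himg : (f '' R).Infinite := by
        intro hfin
        apply hR
        refine (hfin.biUnion fun c _ => h c).subset ?_
        intro x hx
        exact mem_biUnion (mem_image_of_mem f hx) ⟨hx, rfl⟩
      obtain ⟨C, hCR, hC⟩ := SurjOn.exists_bijOn_subset (surjOn_image f R)
      exact ⟨C, hCR, fun hfin => himg (by rw [← hC.image_eq]; exact hfin.image f),
        Or.inr hC.injOn⟩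
  obtain ⟨C, hCR, hC, hf⟩ := h1
  have mono : ∀ D ⊆ C, (∃ c, ∀ x ∈ D, f x = c) ∨ InjOn f D := fun D hD =>
    hf.imp (fun ⟨c, hc⟩ => ⟨c, fun x hx => hc x (hD hx)⟩) fun h => h.mono hD
  -- split into two infinite sets
  let e := Nat.nth (· ∈ C)
  have he : StrictMono e := Nat.nth_strictMono hC
  have heC : ∀ n, e n ∈ C := fun n => Nat.nth_mem_of_infinite hC n
  have hinf : ∀ q : ℕ → ℕ, Function.Injective q → (range fun n => e (q n)).Infinite := fun q hq =>
    infinite_range_of_injective (he.injective.comp hq)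
  by_cases h2 : (range fun n => e (2 * n)) ∈ F
  · refine ⟨range fun n => e (2 * n + 1), ?_, hinf _ (fun a b h => ?_), mono _ ?_, fun h3 => ?_⟩
    · rintro _ ⟨n, rfl⟩
      exact hCR (heC _)
    · simpa using h
    · rintro _ ⟨n, rfl⟩
      exact heC _
    · obtain ⟨x, ⟨n, hn⟩, ⟨m, hm⟩⟩ := F.nonempty_of_mem (inter_mem h2 h3)
      have := he.injective (hn.trans hm.symm)
      omega
  · refine ⟨range fun n => e (2 * n), ?_, hinf _ (fun a b h => ?_), mono _ ?_, h2⟩
    · rintro _ ⟨n, rfl⟩
      exact hCR (heC _)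
    · simpa using h
    · rintro _ ⟨n, rfl⟩
      exact heC _

/-- Under CH there is a selective ultrafilter different from continuum many given ones. -/
theorem exists_selective (hCH : Cardinal.aleph 1 = Cardinal.continuum.{0})
    (F : (ℕ → ℕ) → Ultrafilter ℕ) : ∃ U, IsSelective U ∧ ∀ f, U ≠ F f := by
  classical
  let I : Type := (Cardinal.aleph 1 : Cardinal.{0}).ord.ToType
  have hI : Cardinal.mk I = Cardinal.mk (ℕ → ℕ) := by
    rw [Cardinal.mk_ord_toType, hCH]
    simp
  obtain ⟨e⟩ := Cardinal.eq.1 hI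
  have hcount : ∀ a : I, (Iio a).Countable := by
    intro a
    have h1 : Cardinal.mk (Iio a) < Cardinal.aleph 1 :=
      (Cardinal.mk_Iio_lt a (by simp [I])).trans_eq (Cardinal.mk_ord_toType _)
    rw [← Cardinal.le_aleph0_iff_set_countable]
    have h2 : Cardinal.aleph 1 = Order.succ Cardinal.aleph0 := Cardinal.succ_aleph0.symm
    exact Order.lt_succ_iff.1 (h1.trans_eq h2)
  obtain ⟨g, hg⟩ := rc (I := I) (α := Set ℕ) (P := fun a g x =>
    (∀ b < a, (g b).Infinite) → (∀ c < a, ∀ b < c, (g c \ g b).Finite) →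
      x.Infinite ∧ (∀ b < a, (x \ g b).Finite) ∧
        ((∃ c, ∀ y ∈ x, e a y = c) ∨ InjOn (e a) x) ∧ x ∉ F (e a)) (by
    intro a g
    by_cases h1 : ∀ b < a, (g b).Infinite
    swap
    · exact ⟨∅, fun h => absurd h h1⟩
    by_cases h2 : ∀ c < a, ∀ b < c, (g c \ g b).Finite
    swap
    · exact ⟨∅, fun _ h => absurd h h2⟩
    obtain ⟨R, hR, hR'⟩ : ∃ R : Set ℕ, R.Infinite ∧ ∀ b < a, (R \ g b).Finite := by
      by_cases hne : (Iio a).Nonempty
      · obtain ⟨s, hs⟩ := (hcount a).exists_eq_range hne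
        have hsa : ∀ n, s n < a := fun n => by
          have : s n ∈ Iio a := by rw [hs]; exact mem_range_self n
          exact this
        obtain ⟨R, hR, hR'⟩ := exists_pseudo (S := fun n => g (s n)) fun n => by
          obtain ⟨m, hm, hmax⟩ := exists_max_image (Iic n) s (finite_Iic n) ⟨n, mem_Iic.2 le_rfl⟩
          have h3 : (g (s m) \ ⋃ i ∈ Iic n, (g (s m) \ g (s i))).Infinite := by
            refine (h1 _ (hsa m)).sdiff ((finite_Iic n).biUnion fun i hi => ?_)
            rcases (hmax i hi).eq_or_lt with h | h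
            · rw [h]
              simp
            · exact h2 _ (hsa m) _ h
          refine h3.mono ?_
          rintro x ⟨hx, hx'⟩ i hi
          by_contra hxi
          exact hx' (mem_biUnion (show i ∈ Iic n from hi) ⟨hx, hxi⟩)
        refine ⟨R, hR, fun b hb => ?_⟩
        obtain ⟨n, rfl⟩ : b ∈ range s := by rw [← hs]; exact hb
        exact hR' n
      · exact ⟨univ, infinite_univ, fun b hb => absurd ⟨b, hb⟩ hne⟩
    obtain ⟨C, hCR, hC, hC1, hC2⟩ := exists_homog R hR (e a) (F (e a))
    exact ⟨C, fun _ _ => ⟨hC, fun b hb => (hR' b hb).subset (sdiff_subset_sdiff_left hCR), hC1,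
      hC2⟩⟩)
  have key : ∀ a, (g a).Infinite ∧ (∀ b < a, (g a \ g b).Finite) ∧
      ((∃ c, ∀ y ∈ g a, e a y = c) ∨ InjOn (e a) (g a)) ∧ g a ∉ F (e a) := by
    intro a
    induction a using WellFoundedLT.induction with
    | ind a ih =>
      have h := hg a (fun b hb => by
        simp only [if_pos hb]
        exact (ih b hb).1) (fun c hc b hb => by
        simp only [if_pos hc, if_pos (hb.trans hc)]
        exact (ih c hc).2.1 b hb)
      refine ⟨h.1, fun b hb => ?_, h.2.2⟩
      have := h.2.1 b hb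
      simpa only [if_pos hb] using this
  have hle : ∀ a b, b ≤ a → (g a \ g b).Finite := by
    intro a b hb
    rcases hb.eq_or_lt with h | h
    · rw [h]
      simp
    · exact (key a).2.1 b h
  let f : Filter ℕ :=
    { sets := {X | ∃ a, (g a \ X).Finite}
      univ_sets := ⟨e.symm id, by simp⟩
      sets_of_superset := by
        rintro X Y ⟨a, ha⟩ hXY
        exact ⟨a, ha.subset (sdiff_subset_sdiff_right hXY)⟩
      inter_sets := by
        rintro X Y ⟨a, ha⟩ ⟨b, hb⟩
        refine ⟨max a b, ?_⟩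
        have h1 := hle (max a b) a (le_max_left _ _)
        have h2 := hle (max a b) b (le_max_right _ _)
        refine ((ha.union hb).union (h1.union h2)).subset ?_
        rintro x ⟨hx, hx'⟩
        by_contra hcon
        have h3 : x ∈ g a := by
          by_contra h
          exact hcon (Or.inr (Or.inl ⟨hx, h⟩))
        have h4 : x ∈ g b := by
          by_contra h
          exact hcon (Or.inr (Or.inr ⟨hx, h⟩))
        refine hx' ⟨?_, ?_⟩
        · by_contra h
          exact hcon (Or.inl (Or.inl ⟨h3, h⟩))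
        · by_contra h
          exact hcon (Or.inl (Or.inr ⟨h4, h⟩)) }
  have hf : ∀ X, X ∈ f ↔ ∃ a, (g a \ X).Finite := fun X => Iff.rfl
  have hnot : ∀ X, Xᶜ ∉ f ↔ X ∈ f := by
    intro X
    constructor
    · intro hX
      obtain ⟨a, ha⟩ := e.surjective fun x => if x ∈ X then 0 else 1
      have h1 := (key a).2.2.1
      rw [ha] at h1
      rcases h1 with ⟨c, hc⟩ | hinj
      · by_cases h2 : g a ⊆ X
        · exact (hf X).2 ⟨a, by rw [sdiff_eq_empty.2 h2]; exact finite_empty⟩
        · exfalso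
          apply hX
          obtain ⟨y, hy, hyX⟩ := not_subset.1 h2
          have hc1 : c = 1 := by
            have := hc y hy
            simp only [hyX, if_false] at this
            exact this.symm
          refine (hf _).2 ⟨a, ?_⟩
          convert finite_empty (α := ℕ)
          rw [sdiff_eq_empty]
          intro z hz hzX
          have := hc z hz
          simp only [hzX, if_true] at this
          omega
      · exfalso
        refine (key a).1 (Finite.of_finite_image (f := fun x => if x ∈ X then 0 else 1) ?_ hinj)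
        refine (finite_le_nat 1).subset ?_
        rintro _ ⟨x, -, rfl⟩
        change (if x ∈ X then 0 else 1) ≤ 1
        split_ifs <;> omega
    · rintro ⟨a, ha⟩ ⟨b, hb⟩
      have h1 := hle (max a b) a (le_max_left _ _)
      have h2 := hle (max a b) b (le_max_right _ _)
      refine (key (max a b)).1 (((ha.union hb).union (h1.union h2)).subset ?_)
      intro x hx
      by_contra hcon
      have h3 : x ∈ g a := by
        by_contra h
        exact hcon (Or.inr (Or.inl ⟨hx, h⟩))
      have h4 : x ∈ g b := by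
        by_contra h
        exact hcon (Or.inr (Or.inr ⟨hx, h⟩))
      by_cases hxX : x ∈ X
      · exact hcon (Or.inl (Or.inr ⟨h4, fun h => h hxX⟩))
      · exact hcon (Or.inl (Or.inl ⟨h3, hxX⟩))
  let U : Ultrafilter ℕ := Ultrafilter.ofComplNotMemIff f hnot
  have hU : ∀ X, X ∈ U ↔ ∃ a, (g a \ X).Finite := fun X => Iff.rfl
  have hgU : ∀ a, g a ∈ U := fun a => (hU _).2 ⟨a, by simp⟩
  refine ⟨U, ⟨fun n hn => ?_, fun h => ?_⟩, fun h heq => ?_⟩
  · obtain ⟨a, ha⟩ := (hU _).1 hn
    refine (key a).1 ((ha.union (finite_singleton n)).subset ?_)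
    intro x hx
    by_cases hxn : x = n
    · exact Or.inr hxn
    · exact Or.inl ⟨hx, hxn⟩
  · obtain ⟨a, rfl⟩ := e.surjective h
    exact ⟨g a, hgU a, (key a).2.2.1⟩
  · obtain ⟨a, rfl⟩ := e.surjective h
    exact (key a).2.2.2 (heq ▸ hgU a)

/-- Under CH there are infinitely many pairwise non-isomorphic selective ultrafilters. -/
theorem exists_sequence (hCH : Cardinal.aleph 1 = Cardinal.continuum.{0}) :
    ∃ Y : ℕ → Ultrafilter ℕ, (∀ n, IsSelective (Y n)) ∧
      ∀ m n, m ≠ n → ∀ g : ℕ → ℕ, (Y m).map g ≠ Y n := by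
  classical
  have : Inhabited (Ultrafilter ℕ) := ⟨pure 0⟩
  obtain ⟨Y, hY⟩ := rc (I := ℕ) (α := Ultrafilter ℕ) (P := fun n Y x =>
    IsSelective x ∧ ∀ m < n, ∀ g : ℕ → ℕ, (Y m).map g ≠ x) (by
    intro n Y
    obtain ⟨U, hU, hU'⟩ := exists_selective hCH fun h => (Y (h 0)).map fun x => h (x + 1)
    refine ⟨U, hU, fun m _ g heq => ?_⟩
    exact hU' (fun k => if k = 0 then m else g (k - 1)) (by simpa using heq.symm))
  have hsel : ∀ n, IsSelective (Y n) := fun n => (hY n).1
  have hlt : ∀ m n, m < n → ∀ g : ℕ → ℕ, (Y m).map g ≠ Y n := by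
    intro m n hmn g
    have := (hY n).2 m hmn g
    simpa only [if_pos hmn] using this
  refine ⟨Y, hsel, fun m n hmn g heq => ?_⟩
  rcases lt_or_gt_of_ne hmn with h | h
  · exact hlt m n h g heq
  · obtain ⟨X, hX, ⟨c, hc⟩ | hinj⟩ := (hsel m).2 g
    · refine (hsel n).1 c ?_
      rw [← heq]
      exact Ultrafilter.mem_map.2 (mem_of_superset hX hc)
    · apply hlt n m h (Function.invFunOn g X)
      rw [← heq, Ultrafilter.map_map]
      apply Ultrafilter.coe_injective
      ext S
      rw [Ultrafilter.mem_coe, Ultrafilter.mem_coe, Ultrafilter.mem_map]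
      have h2 : ∀ k ∈ X, Function.invFunOn g X (g k) = k := by
        intro k hk
        have h3 : ∃ a ∈ X, g a = g k := ⟨k, hk, rfl⟩
        exact hinj (Function.invFunOn_mem h3) hk (Function.invFunOn_eq h3)
      constructor
      · intro h4
        refine mem_of_superset (inter_mem h4 hX) ?_
        rintro k ⟨hk1, hk2⟩
        have h5 : Function.invFunOn g X (g k) ∈ S := hk1
        rwa [h2 k hk2] at h5
      · intro h4
        refine mem_of_superset (inter_mem h4 hX) ?_
        rintro k ⟨hk1, hk2⟩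
        change Function.invFunOn g X (g k) ∈ S
        rwa [h2 k hk2]

open Pool.Agent.Helper292.ForceCH in
/-- **Main theorem.** CH holds in some forcing extension (some forcing notion forces that `ω₁` is
preserved and that CH holds), and CH implies that there are a selective ultrafilter `W` and
selective ultrafilters `Y n` such that their Fubini limit, which is a Fubini iterate of p-points of
depth at most `2` and Tukey reducible to itself, is a q-point and not selective. -/
theorem result :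
    (∃ (P : Type) (_ : Preorder P), Nonempty P ∧ ∀ p : P,
      p ∈ OmegaOnePreserved P ∧ p ∈ CHHolds P) ∧
    (Cardinal.aleph 1 = Cardinal.continuum.{0} →
      ∃ (W : Ultrafilter ℕ) (Y : ℕ → Ultrafilter ℕ), IsSelective W ∧ (∀ n, IsSelective (Y n)) ∧
        FubiniIterate 2 (lim W Y) ∧ IsQPoint (lim W Y) ∧ TukeyLE (lim W Y) (lim W Y) ∧
        ¬ IsSelective (lim W Y)) := by
  refine ⟨?_, fun hCH => ?_⟩
  · obtain ⟨P, i, h1, h2⟩ := Pool.Agent.Helper292.ForceCH.exists_forcing
    exact ⟨P, i, h1, fun p => ⟨(h2 p).1, (h2 p).2.2⟩⟩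
  · obtain ⟨Y, hY, hne⟩ := exists_sequence hCH
    refine ⟨Y 0, Y, hY 0, hY, Or.inr ⟨Y 0, Y, (hY 0).isPPoint, fun n => (hY n).isPPoint, rfl⟩,
      isQPoint_lim hY hne, ⟨fun A => A, fun A hA => hA, fun A _ B _ h => h,
        fun B hB => ⟨B, hB, Subset.rfl⟩⟩, not_isSelective_lim (hY 0).1 fun n => (hY n).1⟩

end Pool.Agent.Results.MP_21276c_lc.NonSelectiveQPoint
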